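import Pool.Agent.H26.DT.Defs
import Pool.Agent.H5.GD.Final
import Pool.Agent.H5.GD.Bridge

/-!
# Assembly: from the formula for characters to the Gross-Deligne relation
-/

noncomputable section

namespace GD

open Complex NumberField

variable {V : Type*} [AddCommGroup V] [Module ℚ V] {cls : ℂ → V}

/-- The relation for the determinant, in terms of chosen periods. -/
theorem relAll_of_det (hΓ : GammaSpec V cls) {S : Str} {M : Submodule ℚ S.W} {K : Type} [Field K]
    [NumberField K] (ι : K →+* Module.End ℂ (S.cx M)) {e : K →+* ℂ}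
    (him : ∃ x, (e x).im ≠ 0) (h : DetRelation ι e) {z : (K →+* ℂ) → ℂ}
    (hz : ∀ τ, IsDetPeriod ι τ (z τ)) {N : ℕ}
    (hN : ∀ τ, detType ι τ + detType ι (ComplexEmbedding.conjugate τ) = N)
    {d : ℕ} [NeZero d] (he : ∀ x, e x ∈ cyc d) :
    RelAll cls d e he z (detType ι) := by
  have hex : ∃ d, LiesIn e d := ⟨d, NeZero.pos d, he⟩
  have hc := liesIn_conductor hex
  have : NeZero (conductor e) := ⟨hc.1.ne'⟩
  have h1 : RelAll cls (conductor e) e hc.2 z (detType ι) := by
    intro ε hε l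
    have h2 := h (conductor e) rfl ε (by
      intro l' τ hτ
      rw [isPhi_iff e hc.2] at hτ
      subst hτ
      rw [sum_erase, ← hε, tsum_id]) l (phi e hc.2 l) ((isPhi_iff e hc.2 l _).2 rfl) _ (hz _)
    rw [cls_of_sim hΓ h2, cls_gammaProd hΓ]
  exact h1.change hΓ (three_le hc.2 him) he hN

/-- The relation for real fields. -/
theorem relAll_of_real (hΓ : GammaSpec V cls) {K : Type} [Field K]
    [NumberField K] {e : K →+* ℂ} (hreal : ∀ x, (e x).im = 0) {z : (K →+* ℂ) → ℂ}
    {p : (K →+* ℂ) → ℕ} {N : ℕ}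
    (hN : ∀ τ, p τ + p (ComplexEmbedding.conjugate τ) = N)
    (hz : ∀ τ, Sim (z τ * z (ComplexEmbedding.conjugate τ)) ((2 * Real.pi * I) ^ N))
    {d : ℕ} [NeZero d] (he : ∀ x, e x ∈ cyc d) :
    RelAll cls d e he z p := by
  intro ε hε l
  have hzne : ∀ τ, z τ ≠ 0 := fun τ => left_ne_zero_of_mul (hz τ).1
  have hconj : ∀ l, phi e he (-l) = phi e he l := by
    intro l
    have h1 : phi e he (-1) = e := by
      have h2 := conj_phi e he 1
      rw [phi_one] at h2
      rw [← h2]
      ext x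
      exact Complex.conj_eq_iff_im.2 (hreal x)
    have := phi_mul_of_eq e he l (-1) h1
    rwa [mul_neg, mul_one] at this
  have h1 : tsum' d (gam cls) ε (-l) = tsum' d (gam cls) ε l := by
    have h2 : (-l) = l * (-1) := by rw [mul_neg, mul_one]
    rw [h2, ← tsum_shift]
    apply ko' hΓ
    intro l'
    rw [tsum_shift, hε, hε, mul_neg, mul_one, hconj]
  have h2 := gam_odd hΓ d N ε l (by
    rw [hε, hε, ← conj_phi]
    exact_mod_cast hN _)
  have h3 := cls_of_sim hΓ (hz (phi e he l))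
  rw [conj_phi, hconj, hΓ.mul _ _ (hzne _) (hzne _), cls_two_pi_I hΓ, ← h2, h1] at h3
  have h4 : (2 : ℚ) • (cls (z (phi e he l)) - tsum' d (gam cls) ε l) = 0 := by
    rw [smul_sub, two_smul, two_smul, h3, sub_self]
  rcases smul_eq_zero.1 h4 with h5 | h5
  · norm_num at h5
  · exact sub_eq_zero.1 h5

/-- A subfield of a cyclic Galois field is cyclic and Galois. -/
theorem sub_cyclic {K L : Type} [Field K] [NumberField K] [Field L] [NumberField L] (j : L →+* K)
    (hGal : IsGalois ℚ K) (hcyc : IsCyclic (K ≃ₐ[ℚ] K)) :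
    IsGalois ℚ L ∧ IsCyclic (L ≃ₐ[ℚ] L) := by
  let : Algebra L K := j.toAlgebra
  have : IsScalarTower ℚ L K := IsScalarTower.of_algebraMap_eq' (Subsingleton.elim _ _)
  have hcomm : ∀ x y : (K ≃ₐ[ℚ] K), x * y = y * x := by
    intro x y
    obtain ⟨g, hg⟩ := hcyc.exists_generator
    obtain ⟨a, rfl⟩ := Subgroup.mem_zpowers_iff.1 (hg x)
    obtain ⟨b, rfl⟩ := Subgroup.mem_zpowers_iff.1 (hg y)
    rw [← zpow_add, ← zpow_add, add_comm]
  have hab : IsAbelianGalois ℚ K :=
    { hGal with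
      is_comm := ⟨hcomm⟩ }
  have hL : IsAbelianGalois ℚ L := IsAbelianGalois.of_algHom (IsScalarTower.toAlgHom ℚ L K)
  refine ⟨inferInstance, ?_⟩
  exact isCyclic_of_surjective (AlgEquiv.restrictNormalHom (K₁ := K) L)
    (AlgEquiv.restrictNormalHom_surjective K)

/-- The formal consequences of the polarisation for the determinants. -/
def Datum.Leg {C : Str → Prop} {K : Type} [Field K] (D : Datum C K) : Prop :=
  (∀ τ, ∃ z, IsDetPeriod D.ι τ z) ∧
  ∃ N : ℕ, ∀ τ : D.L →+* ℂ, detType D.ι τ + detType D.ι (ComplexEmbedding.conjugate τ) = N ∧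
    ∀ z z', IsDetPeriod D.ι τ z → IsDetPeriod D.ι (ComplexEmbedding.conjugate τ) z' →
      Sim (z * z') ((2 * Real.pi * I) ^ N)

/-- The formula for the periods and the types of a family over the field `F` in terms of
determinants, after summation over the fibres of the restriction to `K`. -/
def FormFor (cls : ℂ → V) (C : Str → Prop) {R : Str} {F : Type} [Field F] [NumberField F]
    (f : Fam R F) {K : Type} [Field K] [NumberField K] (i : K →+* F) : Prop := by
  classical
  exact ∃ (n : ℕ) (D : Fin n → Datum C K), (∀ k, (D k).Leg) ∧ ∀ τ : K →+* ℂ,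
    (∑ σ ∈ Finset.univ.filter (fun σ : F →+* ℂ => σ.comp i = τ), (f.p σ : ℚ)) =
      ∑ k, (D k).q * (detType (D k).ι (τ.comp (D k).j) : ℚ) ∧
    ∀ z : Fin n → ℂ, (∀ k, IsDetPeriod (D k).ι (τ.comp (D k).j) (z k)) →
      (∑ σ ∈ Finset.univ.filter (fun σ : F →+* ℂ => σ.comp i = τ), cls (f.c σ)) =
        ∑ k, (D k).q • cls (z k)

/-- The relation for a datum over an imaginary cyclic field. -/
theorem Datum.rel (hΓ : GammaSpec V cls) {C : Str → Prop} {F : Type} [Field F] [NumberField F]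
    {e : F →+* ℂ} (hDet : DetFor C e) {K : Type} [Field K] [NumberField K] (i : K →+* F)
    (hGal : IsGalois ℚ K) (hcyc : IsCyclic (K ≃ₐ[ℚ] K)) (D : Datum C K)
    {z : (D.L →+* ℂ) → ℂ} (hz : ∀ τ, IsDetPeriod D.ι τ (z τ)) {N : ℕ}
    (hN : ∀ τ : D.L →+* ℂ, detType D.ι τ + detType D.ι (ComplexEmbedding.conjugate τ) = N)
    (hleg : ∀ τ, Sim (z τ * z (ComplexEmbedding.conjugate τ)) ((2 * Real.pi * I) ^ N))
    {d : ℕ} [NeZero d] (he : ∀ x, e x ∈ cyc d) :
    RelAll cls d ((e.comp i).comp D.j) (fun x => he (i (D.j x))) z (detType D.ι) := by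
  by_cases him : ∃ x, (((e.comp i).comp D.j) x).im ≠ 0
  · obtain ⟨hG, hc⟩ := sub_cyclic D.j hGal hcyc
    have h1 := hDet D.L (i.comp D.j) him hG hc D.S D.mem D.M D.simple D.ι D.central
    exact relAll_of_det hΓ D.ι him h1 hz hN (fun x => he (i (D.j x)))
  · push Not at him
    exact relAll_of_real hΓ him hN hleg (fun x => he (i (D.j x)))

end GD
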