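import Pool.Agent.H26.DT.Defs

/-!
# The statements on generated classes
-/

noncomputable section

namespace GD

/-- The Gross-Deligne relation for all admissible triples with multiplication by `F` in the
structures of the class `C`. -/
def TriplesFor (C : Str → Prop) {F : Type} [Field F] [NumberField F] (e : F →+* ℂ) : Prop :=
  ∀ R, C R → ∀ A : Adm R F, Relation A e

/-- `T` is an `n`-th tensor power of `S`. -/
inductive PowOf (S : Str) : ℕ → Str → Prop
  | one : PowOf S 1 S
  | succ (n : ℕ) (T R : Str) (μ : S.W →ₗ[ℂ] T.W →ₗ[ℂ] R.W) :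
      PowOf S n T → IsBil S T R μ → Function.Bijective (TensorProduct.lift μ) →
      PowOf S (n + 1) R

/-- The Gross-Deligne relation for the admissible triples with multiplication by imaginary cyclic
fields `K` with an embedding `i` in `F` in the tensor powers `T = S ^ ⊗ n` of the structures `S`
of the class `C` with `n * [K : ℚ] ≤ dim S`. -/
def PowFor (C : Str → Prop) {F : Type} [Field F] (e : F →+* ℂ) : Prop :=
  ∀ (K : Type) [Field K] [NumberField K] (i : K →+* F), (∃ x, (e (i x)).im ≠ 0) →
    IsGalois ℚ K → IsCyclic (K ≃ₐ[ℚ] K) →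
    ∀ S, C S → ∀ (n : ℕ) (T : Str), n * Module.finrank ℚ K ≤ Module.finrank ℚ S.B →
      PowOf S n T → ∀ A : Adm T K, Relation A (e.comp i)

end GD
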