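import Pool.Agent.H26.DT.Defs
import Pool.Agent.H5.GD.Final

/-!
# The structure attached to a family
-/

noncomputable section

namespace GD

open Complex NumberField

/-- A form from an adapted basis. -/
theorem isBaseChange_of_basis {k : Type*} [Field k] [Algebra k ℂ] {W : Type} [AddCommGroup W]
    [Module ℂ W] [Module k W] [IsScalarTower k ℂ W] (L : Submodule k W) {ι : Type*}
    (b : Module.Basis ι ℂ W) (hb : ∀ i, b i ∈ L) (hs : L ≤ Submodule.span k (Set.range b)) :
    IsBaseChange ℂ L.subtype := by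
  have hlin : LinearIndependent k (fun i => (⟨b i, hb i⟩ : L)) := by
    apply LinearIndependent.of_comp L.subtype
    exact b.linearIndependent.restrict_scalars (by
      intro x y h
      simp only [Algebra.smul_def, mul_one] at h
      exact (algebraMap k ℂ).injective h)
  have hsp : ⊤ ≤ Submodule.span k (Set.range fun i => (⟨b i, hb i⟩ : L)) := by
    rintro ⟨x, hx⟩ _
    have h1 := hs hx
    have h2 : Submodule.span k (Set.range b) =
        (Submodule.span k (Set.range fun i => (⟨b i, hb i⟩ : L))).map L.subtype := by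
      rw [Submodule.map_span, ← Set.range_comp]
      rfl
    rw [h2] at h1
    obtain ⟨y, hy, hyx⟩ := h1
    have : y = ⟨x, hx⟩ := Subtype.ext hyx
    rwa [this] at hy
  let bL : Module.Basis ι k L := Module.Basis.mk hlin hsp
  have hbL : ∀ i, bL i = ⟨b i, hb i⟩ := fun i => by
    simp [bL]
  let e : TensorProduct k ℂ L ≃ₗ[ℂ] W := (Algebra.TensorProduct.basis ℂ bL).equiv b (Equiv.refl ι)
  refine IsBaseChange.of_equiv e ?_
  have h3 : ((e.toLinearMap.restrictScalars k).comp
      ((TensorProduct.mk k ℂ L) 1)) = L.subtype := by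
    apply bL.ext
    intro i
    have h4 : e ((Algebra.TensorProduct.basis ℂ bL) i) = b i :=
      (Algebra.TensorProduct.basis ℂ bL).equiv_apply i b (Equiv.refl ι)
    rw [Algebra.TensorProduct.basis_apply] at h4
    change e ((1 : ℂ) ⊗ₜ[k] bL i) = _
    rw [h4, hbL]
    rfl
  intro x
  exact congrArg (fun g => g x) h3

variable {R : Str} {F : Type} [Field F] [NumberField F]

/-- The rational form of the structure of a family. -/
def famB (F : Type) [Field F] [NumberField F] : Submodule ℚ ((F →+* ℂ) → ℂ) where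
  carrier := {w | ∃ x : F, ∀ σ, w σ = σ x}
  add_mem' := by
    rintro a b ⟨x, hx⟩ ⟨y, hy⟩
    exact ⟨x + y, fun σ => by rw [Pi.add_apply, hx, hy, map_add]⟩
  zero_mem' := ⟨0, fun σ => by rw [map_zero]; rfl⟩
  smul_mem' := by
    rintro q a ⟨x, hx⟩
    refine ⟨q • x, fun σ => ?_⟩
    rw [Pi.smul_apply, hx, Algebra.smul_def, Algebra.smul_def, map_mul]
    simp

/-- The de Rham form of the structure of a family. -/
def Fam.strD (f : Fam R F) : Submodule Qbar ((F →+* ℂ) → ℂ) where
  carrier := {w | ∀ σ, ∃ a : Qbar, w σ = (a : ℂ) * f.c σ}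
  add_mem' := by
    intro a b ha hb σ
    obtain ⟨x, hx⟩ := ha σ
    obtain ⟨y, hy⟩ := hb σ
    exact ⟨x + y, by rw [Pi.add_apply, hx, hy]; push_cast; ring⟩
  zero_mem' := fun σ => ⟨0, by simp⟩
  smul_mem' := by
    intro q a ha σ
    obtain ⟨x, hx⟩ := ha σ
    refine ⟨q * x, ?_⟩
    rw [Pi.smul_apply, hx]
    change (q : ℂ) * ((x : ℂ) * f.c σ) = _
    push_cast
    ring

/-- The basis of the rational form. -/
theorem exists_basisB (F : Type) [Field F] [NumberField F] :
    ∃ b : Module.Basis (Fin (Module.finrank ℚ F)) ℂ ((F →+* ℂ) → ℂ),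
      ∀ i σ, b i σ = σ (bas F i) := by
  classical
  let v : Fin (Module.finrank ℚ F) → ((F →+* ℂ) → ℂ) := fun i σ => σ (bas F i)
  have hsp : ⊤ ≤ Submodule.span ℂ (Set.range v) := by
    intro w _
    have h1 : w = ∑ i, (∑ σ, w σ * σ (bad F i)) • v i := by
      funext τ
      rw [Finset.sum_apply]
      simp only [Pi.smul_apply, smul_eq_mul, v, Finset.sum_mul]
      rw [Finset.sum_comm]
      have h2 : ∀ σ : F →+* ℂ, ∑ i, w σ * σ (bad F i) * τ (bas F i) =
          w σ * (if τ = σ then 1 else 0) := by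
        intro σ
        rw [← orth F σ τ, Finset.mul_sum]
        exact Finset.sum_congr rfl fun i _ => mul_assoc _ _ _
      rw [Finset.sum_congr rfl fun σ _ => h2 σ]
      simp
    rw [h1]
    exact Submodule.sum_mem _ fun i _ => Submodule.smul_mem _ _
      (Submodule.subset_span (Set.mem_range_self i))
  have hcard : Fintype.card (Fin (Module.finrank ℚ F)) =
      Module.finrank ℂ ((F →+* ℂ) → ℂ) := by
    rw [Fintype.card_fin, Module.finrank_fintype_fun_eq_card, card_emb]
  have hlin : LinearIndependent ℂ v :=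
    linearIndependent_of_top_le_span_of_card_eq_finrank hsp hcard
  refine ⟨Module.Basis.mk hlin hsp, fun i σ => ?_⟩
  simp [v]

theorem famB_form (F : Type) [Field F] [NumberField F] :
    IsBaseChange ℂ (famB F).subtype := by
  obtain ⟨b, hb⟩ := exists_basisB F
  refine isBaseChange_of_basis (famB F) b (fun i => ⟨bas F i, hb i⟩) ?_
  rintro w ⟨x, hx⟩
  have h1 : w = ∑ i, (bas F).repr x i • b i := by
    funext σ
    rw [hx, Finset.sum_apply]
    conv_lhs => rw [← (bas F).sum_repr x, map_sum]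
    refine Finset.sum_congr rfl fun i _ => ?_
    rw [Pi.smul_apply, hb, Algebra.smul_def, map_mul, Algebra.smul_def]
    simp
  rw [h1]
  exact Submodule.sum_mem _ fun i _ => Submodule.smul_mem _ _
    (Submodule.subset_span (Set.mem_range_self i))

theorem Fam.strD_form (f : Fam R F) : IsBaseChange ℂ f.strD.subtype := by
  classical
  have hu : ∀ σ : F →+* ℂ, IsUnit (f.c σ) := fun σ => (f.c_ne σ).isUnit
  let b : Module.Basis (F →+* ℂ) ℂ ((F →+* ℂ) → ℂ) :=
    Module.Basis.isUnitSMul (Pi.basisFun ℂ (F →+* ℂ)) hu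
  have hb : ∀ σ, b σ = Pi.single σ (f.c σ) := by
    intro σ
    simp only [b, Module.Basis.isUnitSMul_apply, Pi.basisFun_apply]
    rw [← Pi.single_smul, smul_eq_mul, mul_one]
  refine isBaseChange_of_basis f.strD b (fun σ => ?_) ?_
  · rw [hb]
    intro τ
    by_cases h : τ = σ
    · subst h
      exact ⟨1, by simp⟩
    · exact ⟨0, by simp [Pi.single_eq_of_ne h]⟩
  · intro w hw
    choose a ha using hw
    have h1 : w = ∑ σ, a σ • b σ := by
      funext τ
      rw [Finset.sum_apply, Finset.sum_eq_single τ]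
      · rw [Pi.smul_apply, hb, Pi.single_eq_same, ha]
        rfl
      · intro σ _ hσ
        rw [Pi.smul_apply, hb, Pi.single_eq_of_ne (Ne.symm hσ), smul_zero]
      · intro h
        exact absurd (Finset.mem_univ τ) h
    rw [h1]
    exact Submodule.sum_mem _ fun i _ => Submodule.smul_mem _ _
      (Submodule.subset_span (Set.mem_range_self i))

/-- The Hodge pieces of the structure of a family. -/
def Fam.strH (f : Fam R F) (p : ℕ) : Submodule ℂ ((F →+* ℂ) → ℂ) where
  carrier := {w | ∀ σ, f.p σ ≠ p → w σ = 0}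
  add_mem' := by
    intro a b ha hb σ hσ
    rw [Pi.add_apply, ha σ hσ, hb σ hσ, add_zero]
  zero_mem' := fun σ _ => rfl
  smul_mem' := by
    intro c a ha σ hσ
    rw [Pi.smul_apply, ha σ hσ, smul_zero]

theorem Fam.strH_internal (f : Fam R F) : DirectSum.IsInternal f.strH := by
  classical
  rw [DirectSum.isInternal_submodule_iff_iSupIndep_and_iSup_eq_top]
  constructor
  · intro p
    rw [Submodule.disjoint_def]
    intro w hw hw'
    have h1 : ∀ σ, f.p σ = p → w σ = 0 := by
      have h2 : (⨆ (q) (_ : q ≠ p), f.strH q) ≤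
          (⨅ σ ∈ {σ | f.p σ = p}, LinearMap.ker (LinearMap.proj (R := ℂ) (φ := fun _ : F →+* ℂ => ℂ) σ)) := by
        refine iSup_le fun q => iSup_le fun hq => ?_
        intro u hu
        simp only [Submodule.mem_iInf, LinearMap.mem_ker, LinearMap.proj_apply]
        intro σ hσ
        exact hu σ (by rw [show f.p σ = p from hσ]; exact Ne.symm hq)
      have h3 := h2 hw'
      simp only [Submodule.mem_iInf, LinearMap.mem_ker, LinearMap.proj_apply] at h3
      exact fun σ hσ => h3 σ hσ
    funext σ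
    by_cases h : f.p σ = p
    · exact h1 σ h
    · exact hw σ h
  · rw [eq_top_iff]
    intro w _
    have h1 : w = ∑ σ, Pi.single σ (w σ) := (Finset.univ_sum_single w).symm
    rw [h1]
    refine Submodule.sum_mem _ fun σ _ => Submodule.mem_iSup_of_mem (f.p σ) ?_
    intro τ hτ
    rw [Pi.single_eq_of_ne]
    rintro rfl
    exact hτ rfl

/-- The structure of a family. -/
def Fam.str (f : Fam R F) : Str where
  W := (F →+* ℂ) → ℂ
  wt := R.wt
  B := famB F
  D := f.strD
  B_form := famB_form F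
  D_form := f.strD_form
  conj :=
    { toFun := fun w σ => (starRingEnd ℂ) (w (ComplexEmbedding.conjugate σ))
      map_add' := fun a b => by
        funext σ
        simp
      map_smul' := fun c a => by
        funext σ
        simp }
  conj_B := by
    rintro w ⟨x, hx⟩
    funext σ
    change (starRingEnd ℂ) (w (ComplexEmbedding.conjugate σ)) = w σ
    rw [hx, hx]
    simp [ComplexEmbedding.conjugate]
  hodge := f.strH
  hodge_internal := f.strH_internal
  hodge_large := by
    intro p hp
    rw [eq_bot_iff]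
    intro w hw
    rw [Submodule.mem_bot]
    funext σ
    apply hw σ
    have := f.p_le σ
    omega
  hodge_conj := by
    intro p hp w hw σ hσ
    change (starRingEnd ℂ) (w (ComplexEmbedding.conjugate σ)) = 0
    rw [hw, map_zero]
    have := f.p_add σ
    omega

/-- The map from the structure of the family. -/
def Fam.toR (f : Fam R F) : f.str.W →ₗ[ℂ] R.W := Fintype.linearCombination ℂ f.v

theorem Fam.toR_apply (f : Fam R F) (w : (F →+* ℂ) → ℂ) : f.toR w = ∑ σ, w σ • f.v σ := rfl

theorem Fam.toR_hom (f : Fam R F) : IsHom f.str R f.toR where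
  wt := rfl
  betti := by
    rintro w ⟨x, hx⟩
    change (∑ σ, w σ • f.v σ) ∈ R.B
    simp only [hx]
    exact f.rat x
  deRham := by
    intro w hw
    change (∑ σ, w σ • f.v σ) ∈ R.D
    refine Submodule.sum_mem _ fun σ _ => ?_
    obtain ⟨a, ha⟩ := hw σ
    rw [ha, mul_smul]
    exact R.D_smul (mem_algebraicClosure_iff.1 a.2) (f.dR σ)
  hodge := by
    intro p w hw
    change (∑ σ, w σ • f.v σ) ∈ R.hodge p
    refine Submodule.sum_mem _ fun σ _ => ?_
    by_cases h : f.p σ = p
    · exact Submodule.smul_mem _ _ (h ▸ f.hdg σ)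
    · rw [hw σ h, zero_smul]
      exact zero_mem _

/-- Multiplication by an element of the field. -/
def Fam.mulF (f : Fam R F) (x : F) : f.str.W →ₗ[ℂ] f.str.W where
  toFun := fun w σ => σ x * w σ
  map_add' := fun a b => by
    funext σ
    change σ x * (a σ + b σ) = σ x * a σ + σ x * b σ
    ring
  map_smul' := fun c a => by
    funext σ
    change σ x * (c * a σ) = c * (σ x * a σ)
    ring

theorem Fam.mulF_hom (f : Fam R F) (x : F) : IsHom f.str f.str (f.mulF x) where
  wt := rfl
  betti := by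
    rintro w ⟨y, hy⟩
    refine ⟨x * y, fun σ => ?_⟩
    change σ x * w σ = _
    rw [hy, map_mul]
  deRham := by
    intro w hw σ
    obtain ⟨a, ha⟩ := hw σ
    refine ⟨⟨σ x, mem_algebraicClosure_iff.2 (emb_alg F σ x)⟩ * a, ?_⟩
    change σ x * w σ = _
    rw [ha]
    push_cast
    ring
  hodge := by
    intro p w hw σ hσ
    change σ x * w σ = 0
    rw [hw σ hσ, mul_zero]

/-- Natural derivations act on the vectors of a family by scalars. -/
theorem Fam.nat_scalar (f : Fam R F) {T : (R : Str) → Module.End ℂ R.W} (hT : IsNat T) :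
    ∃ χ : (F →+* ℂ) → ℂ, ∀ σ, T R (f.v σ) = χ σ • f.v σ := by
  classical
  refine ⟨fun σ => T f.str (Pi.single σ 1 : (F →+* ℂ) → ℂ) σ, fun σ => ?_⟩
  have h1 : ∀ τ, τ ≠ σ → T f.str (Pi.single σ 1 : (F →+* ℂ) → ℂ) τ = 0 := by
    intro τ hτ
    obtain ⟨x, hx⟩ : ∃ x, τ x ≠ σ x := by
      by_contra hcon
      push Not at hcon
      exact hτ (RingHom.ext hcon)
    have h2 := hT.nat _ _ _ (f.mulF_hom x) (Pi.single σ 1 : (F →+* ℂ) → ℂ)
    have h3 : f.mulF x (Pi.single σ 1 : (F →+* ℂ) → ℂ) =
        (σ x) • (Pi.single σ 1 : (F →+* ℂ) → ℂ) := by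
      funext ρ
      change ρ x * (Pi.single σ 1 : (F →+* ℂ) → ℂ) ρ =
        σ x * (Pi.single σ 1 : (F →+* ℂ) → ℂ) ρ
      by_cases h : ρ = σ
      · rw [h]
      · rw [Pi.single_eq_of_ne h]
        ring
    rw [h3] at h2
    have h4 : T f.str ((σ x) • (Pi.single σ 1 : (F →+* ℂ) → ℂ)) =
        (σ x) • T f.str (Pi.single σ 1 : (F →+* ℂ) → ℂ) := map_smul _ _ _
    rw [h4] at h2
    have h5 := congrFun h2 τ
    change σ x * T f.str (Pi.single σ 1 : (F →+* ℂ) → ℂ) τ =
      τ x * T f.str (Pi.single σ 1 : (F →+* ℂ) → ℂ) τ at h5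
    have h6 : (τ x - σ x) * T f.str (Pi.single σ 1 : (F →+* ℂ) → ℂ) τ = 0 := by
      rw [sub_mul, h5, sub_self]
    exact (mul_eq_zero.1 h6).resolve_left (sub_ne_zero.2 hx)
  have h2 := hT.nat _ _ _ f.toR_hom (Pi.single σ 1 : (F →+* ℂ) → ℂ)
  have h3 : f.toR (Pi.single σ 1 : (F →+* ℂ) → ℂ) = f.v σ := by
    change (∑ τ, (Pi.single σ 1 : (F →+* ℂ) → ℂ) τ • f.v τ) = f.v σ
    rw [Finset.sum_eq_single σ, Pi.single_eq_same, one_smul]
    · intro τ _ hτ
      rw [Pi.single_eq_of_ne hτ, zero_smul]
    · intro h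
      exact absurd (Finset.mem_univ σ) h
  have h4 : f.toR (T f.str (Pi.single σ 1 : (F →+* ℂ) → ℂ)) =
      T f.str (Pi.single σ 1 : (F →+* ℂ) → ℂ) σ • f.v σ := by
    change (∑ τ, (T f.str (Pi.single σ 1 : (F →+* ℂ) → ℂ)) τ • f.v τ) = _
    rw [Finset.sum_eq_single σ]
    · intro τ _ hτ
      rw [h1 τ hτ, zero_smul]
    · intro h
      exact absurd (Finset.mem_univ σ) h
  exact (congrArg (T R) h3).symm.trans (h2.trans h4)

end GD
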