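import Pool.Agent.H26.DT.Main
import Pool.Agent.H26.DT.Defs2
import Pool.Agent.H44.GD.Ten
import Pool.Agent.H27.GD.Conv

/-!
# The converse: the relation for determinants from the relation for admissible triples
-/

noncomputable section

namespace GD

open Complex NumberField

/-- Determinants of periods are unique up to algebraic factors. -/
theorem detPeriod_sim {S : Str} {M : Submodule ℚ S.W} (hM : M ≤ S.B) {K : Type} [Field K]
    [NumberField K] (ι : K →+* Module.End ℂ (S.cx M)) {τ : K →+* ℂ} {z z' : ℂ}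
    (hz : IsDetPeriod ι τ z) (hz' : IsDetPeriod ι τ z') : Sim z z' := by
  obtain ⟨h0, h1⟩ := detPeriod_trace ι hM hz
  obtain ⟨h0', h1'⟩ := detPeriod_trace ι hM hz'
  refine ⟨h0, h0', ?_⟩
  apply isAlgebraic_of_der
  intro δ
  have h2 : δ z / z = δ z' / z' := by rw [← h1, ← h1']
  have h3 := der_div_mul δ (div_ne_zero h0 h0') h0'
  rw [div_mul_cancel₀ _ h0'] at h3
  have h4 : δ (z / z') / (z / z') = 0 := by
    rw [h2] at h3
    exact (add_eq_right.1 h3.symm)
  rcases div_eq_zero_iff.1 h4 with h5 | h5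
  · exact h5
  · exact absurd h5 (div_ne_zero h0 h0')

/-- The relation for the determinant from the relation for a triple with the same periods. -/
theorem detRelation_of {S : Str} {M : Submodule ℚ S.W} (hM : M ≤ S.B) {K : Type} [Field K]
    [NumberField K] (ι : K →+* Module.End ℂ (S.cx M)) {e : K →+* ℂ} (hex : ∃ d, LiesIn e d)
    {R : Str} (f : Fam R K) (hc : ∀ τ, IsDetPeriod ι τ (f.c τ)) (hp : f.p = detType ι)
    (h : ∀ A : Adm R K, Relation A e) : DetRelation ι e := by
  have hcond := liesIn_conductor hex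
  intro d _ hd ε hε l τ hτ z hz
  rw [← hd] at hcond
  obtain ⟨A, hA, -⟩ := f.exists_adm
  have h1 := relationAt_to gammaSpec hA hcond.2 (h A d hd)
  rw [isPhi_iff e hcond.2] at hτ
  subst hτ
  have hdd : (d : ℚ) ≠ 0 := by exact_mod_cast NeZero.ne d
  have h2 := h1 ε (by
    intro l'
    have h3 := hε l' (phi e hcond.2 l') ((isPhi_iff e hcond.2 l' _).2 rfl)
    rw [sum_erase, ← tsum_id] at h3
    rw [hp]
    exact (mul_left_cancel₀ hdd h3).symm) l
  refine (detPeriod_sim hM ι hz (hc _)).trans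
    (sim_of_cls gammaSpec (f.c_ne _) (gammaProd_ne d ε l) ?_)
  rw [h2, cls_gammaProd gammaSpec]

/-- Determinants exist in the tensor powers. -/
def HasDetPow (C : Str → Prop) : Prop :=
  ∀ (K : Type) [Field K] [NumberField K] (S : Str), C S → ∀ M : Submodule ℚ S.W, IsSimple S M →
    ∀ ι : K →+* Module.End ℂ (S.cx M), IsCentral ι →
      ∃ k : ℕ, (k + 1) * Module.finrank ℚ K = Module.finrank ℚ M ∧
        ∃ f : Fam (S.tpow k) K, (∀ τ, IsDetPeriod ι τ (f.c τ)) ∧ f.p = detType ι

theorem powOf_gen {C : Str → Prop} {S : Str} (hS : Gen C S) {n : ℕ} {T : Str}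
    (h : PowOf S n T) : Gen C T := by
  induction h with
  | one => exact hS
  | succ n T R μ _ hμ hbij ih =>
    refine Gen.ten R 1 (fun _ => S) (fun _ => T) (fun _ => μ) (fun _ => hS) (fun _ => ih)
      (fun _ => hμ) ?_
    rw [ciSup_const, LinearMap.range_eq_top]
    exact hbij.2

theorem powOf_tpow (S : Str) (k : ℕ) : PowOf S (k + 1) (S.tpow k) := by
  induction k with
  | zero => exact PowOf.one
  | succ k ih =>
    refine PowOf.succ (k + 1) (S.tpow k) (S.tpow (k + 1)) (mkT S (S.tpow k)) ih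
      (isBil_mk S (S.tpow k)) ?_
    have h : ∀ z, TensorProduct.lift (mkT S (S.tpow k)) z = z := lift_mkT S (S.tpow k)
    exact ⟨fun x y hxy => (h x).symm.trans (hxy.trans (h y)), fun z => ⟨z, h z⟩⟩

theorem detFor_sub {C : Str → Prop} {F K : Type} [Field F] [Field K] {e : F →+* ℂ} (i : K →+* F)
    (h : DetFor C e) : DetFor C (e.comp i) :=
  fun L _ _ j him hG hc S hS M hM ι hι => h L (i.comp j) him hG hc S hS M hM ι hι

/-- Bounded powers suffice. -/
theorem detFor_of_pow {C : Str → Prop} (hD : HasDetPow C) {F : Type} [Field F] [NumberField F]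
    {e : F →+* ℂ} (hex : ∃ d, LiesIn e d) (h : PowFor C e) : DetFor C e := by
  intro K _ _ i him hG hc S hS M hM ι hι
  obtain ⟨k, hk, f, hfc, hfp⟩ := hD K S hS M hM ι hι
  have hex' : ∃ d, LiesIn (e.comp i) d := by
    obtain ⟨d, hd⟩ := hex
    exact ⟨d, hd.1, fun x => hd.2 (i x)⟩
  refine detRelation_of hM.sub.le ι hex' f hfc hfp
    (h K i him hG hc S hS (k + 1) (S.tpow k) ?_ (powOf_tpow S k))
  rw [hk]
  haveI := S.finite_B
  exact Submodule.finrank_mono hM.sub.le

/-- The three equivalent forms of the Gross-Deligne conjecture for a generated class. -/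
theorem three_forms {C : Str → Prop} (hP : ∀ S, C S → Nonempty (Pol S)) (hD : HasDetPow C)
    {F : Type} [Field F] [NumberField F] (e : F →+* ℂ) (hex : ∃ d, LiesIn e d) :
    [TriplesFor (Gen C) e, DetFor C e, PowFor C e].TFAE := by
  have h1 : ∀ {K : Type} [Field K] [NumberField K] (e : K →+* ℂ), (∃ d, LiesIn e d) →
      DetFor C e → TriplesFor (Gen C) e := fun e hex h R hR A => det_suffices hP e hex h hR A
  have h2 : TriplesFor (Gen C) e → DetFor C e := fun h =>
    DT.det_of_relation gammaSpec hP e hex h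
  have h3 : TriplesFor (Gen C) e → PowFor C e := by
    intro h K _ _ i him hG hc S hS n T _ hT A
    have hex' : ∃ d, LiesIn (e.comp i) d := by
      obtain ⟨d, hd⟩ := hex
      exact ⟨d, hd.1, fun x => hd.2 (i x)⟩
    exact h1 (e.comp i) hex' (detFor_sub i (h2 h)) T (powOf_gen (Gen.base S hS) hT) A
  tfae_have 1 → 2 := h2
  tfae_have 2 → 1 := h1 e hex
  tfae_have 1 → 3 := h3
  tfae_have 3 → 2 := detFor_of_pow hD hex
  tfae_finish

end GD
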