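import Pool.Agent.H26.DT.Asm

/-!
# The relation for a family from the formula for determinants
-/

noncomputable section

namespace GD

open Complex NumberField

variable {V : Type*} [AddCommGroup V] [Module ℚ V] {cls : ℂ → V}

theorem tsum_mul_left {M : Type*} [AddCommGroup M] [Module ℚ M] {d : ℕ} [NeZero d] (ψ : ℚ → M)
    (c : ℚ) (ε : ZMod d → ℚ) (l : (ZMod d)ˣ) :
    tsum' d ψ (fun a => c * ε a) l = c • tsum' d ψ ε l := by
  unfold tsum'
  rw [Finset.smul_sum]
  exact Finset.sum_congr rfl fun b _ => by rw [mul_smul]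

theorem tsum_lin {M : Type*} [AddCommGroup M] [Module ℚ M] {d : ℕ} [NeZero d] (ψ : ℚ → M)
    (w : ℕ) {n : ℕ} (q : Fin n → ℚ) (εk : Fin n → ZMod d → ℚ) (l : (ZMod d)ˣ) :
    tsum' d ψ (fun a => ∑ k, ((w : ℚ) * q k) * εk k a) l =
      (w : ℚ) • ∑ k, q k • tsum' d ψ (εk k) l := by
  rw [tsum_sum (s := Finset.univ) (ε := fun k a => ((w : ℚ) * q k) * εk k a),
    Finset.smul_sum]
  refine Finset.sum_congr rfl fun k _ => ?_
  rw [tsum_mul_left, mul_smul]

/-- The fibres of the map from a coset of `N` to the embeddings of `F` have constant size. -/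
theorem ker_card {F : Type} [Field F] [NumberField F] (e : F →+* ℂ) {d : ℕ} [NeZero d]
    (he : ∀ x, e x ∈ cyc d) {N : Subgroup (ZMod d)ˣ} [Fintype N] {K : Type} [Field K]
    [NumberField K] (i : K →+* F)
    (hi : ∀ l l', (phi e he l).comp i = (phi e he l').comp i ↔ l⁻¹ * l' ∈ N) :
    ∃ w : ℕ, ∀ (l : (ZMod d)ˣ) (σ : F →+* ℂ), σ.comp i = (phi e he l).comp i →
      Nat.card {ν : N // phi e he (l * ν) = σ} = w := by
  classical
  refine ⟨Nat.card {ν : N // phi e he ν = e}, ?_⟩
  intro l σ hσ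
  obtain ⟨l', rfl⟩ := exists_phi e he σ
  have hμ := (hi l l').1 hσ.symm
  have key : ∀ a b : (ZMod d)ˣ, phi e he a = phi e he b ↔ phi e he (b⁻¹ * a) = e := by
    intro a b
    obtain ⟨G, hGs, hG⟩ := exists_G e he
    constructor
    · intro h
      have h1 := phi_comp_G e he G hG a b⁻¹
      have h2 := phi_comp_G e he G hG b b⁻¹
      rw [← h, h1, mul_inv_cancel, phi_one] at h2
      rw [mul_comm, h2]
    · intro h
      have h1 := phi_mul_of_eq e he b (b⁻¹ * a) h
      rw [mul_inv_cancel_left] at h1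
      exact h1
  have hto : ∀ ν : {ν : N // phi e he (l * ν) = phi e he l'},
      phi e he ((l⁻¹ * l')⁻¹ * (ν.1 : (ZMod d)ˣ)) = e := by
    intro ν
    have h1 := (key _ _).1 ν.2
    rw [← mul_assoc] at h1
    rwa [mul_inv_rev, inv_inv]
  have hinv : ∀ ν : {ν : N // phi e he ν = e},
      phi e he (l * ((l⁻¹ * l') * (ν.1 : (ZMod d)ˣ))) = phi e he l' := by
    intro ν
    rw [key]
    have h1 := ν.2
    have h2 : l'⁻¹ * (l * ((l⁻¹ * l') * (ν.1 : (ZMod d)ˣ))) = ν.1 := by group
    rwa [h2]
  refine Nat.card_congr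
    { toFun := fun ν => ⟨⟨(l⁻¹ * l')⁻¹ * ν.1, N.mul_mem (N.inv_mem hμ) ν.1.2⟩, hto ν⟩
      invFun := fun ν => ⟨⟨(l⁻¹ * l') * ν.1, N.mul_mem hμ ν.1.2⟩, hinv ν⟩
      left_inv := ?_
      right_inv := ?_ }
  · intro ν
    apply Subtype.ext
    apply Subtype.ext
    simp only
    group
  · intro ν
    apply Subtype.ext
    apply Subtype.ext
    simp only
    group

/-- Sum over the cosets of the kernel of a character. -/
theorem ker_sum {F : Type} [Field F] [NumberField F] (e : F →+* ℂ) {d : ℕ} [NeZero d]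
    (he : ∀ x, e x ∈ cyc d) {N : Subgroup (ZMod d)ˣ} [Fintype N] {K : Type} [Field K]
    [NumberField K] (i : K →+* F)
    (hi : ∀ l l', (phi e he l).comp i = (phi e he l').comp i ↔ l⁻¹ * l' ∈ N) {w : ℕ}
    (hw : ∀ (l : (ZMod d)ˣ) (σ : F →+* ℂ), σ.comp i = (phi e he l).comp i →
      Nat.card {ν : N // phi e he (l * ν) = σ} = w)
    {M : Type*} [AddCommGroup M] [Module ℚ M] (g : (F →+* ℂ) → M) (l : (ZMod d)ˣ)
    [DecidablePred (fun σ : F →+* ℂ => σ.comp i = (phi e he l).comp i)] :
      ∑ ν : N, g (phi e he (l * ν)) =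
        (w : ℚ) • ∑ σ ∈ Finset.univ.filter
          (fun σ : F →+* ℂ => σ.comp i = (phi e he l).comp i), g σ := by
  classical
  rw [Finset.smul_sum, ← Finset.sum_fiberwise_of_maps_to (s := Finset.univ)
    (t := Finset.univ.filter (fun σ : F →+* ℂ => σ.comp i = (phi e he l).comp i))
    (g := fun ν : N => phi e he (l * ν))]
  · refine Finset.sum_congr rfl fun σ hσ => ?_
    have h1 : ∀ ν ∈ Finset.univ.filter (fun ν : N => phi e he (l * ν) = σ),
        g (phi e he (l * ν)) = g σ := by
      intro ν hν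
      rw [(Finset.mem_filter.1 hν).2]
    rw [Finset.sum_congr rfl h1, Finset.sum_const, ← Fintype.card_subtype,
      ← Nat.card_eq_fintype_card, hw l σ (Finset.mem_filter.1 hσ).2, Nat.cast_smul_eq_nsmul]
  · intro ν _
    rw [Finset.mem_filter]
    refine ⟨Finset.mem_univ _, ?_⟩
    symm
    rw [hi, inv_mul_cancel_left]
    exact ν.2

/-- The Legendre relation for a family from the formula. -/
theorem odd_of_form (hΓ : GammaSpec V cls) {C : Str → Prop} {R : Str} {F : Type} [Field F]
    [NumberField F] (f : Fam R F) (h : FormFor cls C f (RingHom.id F)) (σ : F →+* ℂ) :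
    cls (f.c σ) + cls (f.c (ComplexEmbedding.conjugate σ)) =
      (R.wt : ℚ) • cls ((Real.pi : ℝ) : ℂ) := by
  classical
  obtain ⟨n, D, hleg, hD⟩ := h
  have hfil : ∀ σ : F →+* ℂ,
      Finset.univ.filter (fun σ' : F →+* ℂ => σ'.comp (RingHom.id F) = σ) = {σ} := by
    intro σ
    ext σ'
    simp
  choose hex N hN using hleg
  choose z hz using hex
  have h1 := hD σ
  have h2 := hD (ComplexEmbedding.conjugate σ)
  rw [hfil, Finset.sum_singleton] at h1 h2
  have h3 := h1.2 (fun k => z k _) (fun k => hz k _)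
  have h4 := h2.2 (fun k => z k _) (fun k => hz k _)
  rw [Finset.sum_singleton] at h3 h4
  have hcj : ∀ k, (ComplexEmbedding.conjugate σ).comp (D k).j =
      ComplexEmbedding.conjugate (σ.comp (D k).j) := fun k => rfl
  have h5 : ∀ k, cls (z k (σ.comp (D k).j)) +
      cls (z k ((ComplexEmbedding.conjugate σ).comp (D k).j)) =
        (N k : ℚ) • cls ((Real.pi : ℝ) : ℂ) := by
    intro k
    have h6 := (hN k (σ.comp (D k).j)).2 _ _ (hz k _) (hz k _)
    rw [hcj, ← hΓ.mul _ _ (left_ne_zero_of_mul h6.1) (right_ne_zero_of_mul h6.1),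
      cls_of_sim hΓ h6, cls_two_pi_I hΓ]
  have h6 : ((R.wt : ℕ) : ℚ) = ∑ k, (D k).q * (N k : ℚ) := by
    have h7 : ((R.wt : ℕ) : ℚ) = (f.p σ : ℚ) + f.p (ComplexEmbedding.conjugate σ) := by
      exact_mod_cast (f.p_add σ).symm
    rw [h7, h1.1, h2.1, ← Finset.sum_add_distrib]
    refine Finset.sum_congr rfl fun k _ => ?_
    rw [← mul_add, hcj]
    congr 1
    exact_mod_cast (hN k (σ.comp (D k).j)).1
  rw [h3, h4, ← Finset.sum_add_distrib, h6, Finset.sum_smul]
  refine Finset.sum_congr rfl fun k _ => ?_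
  rw [← smul_add, h5, mul_smul]

/-- The relation for a family. -/
theorem core_det (hΓ : GammaSpec V cls) {C : Str → Prop} {R : Str} {F : Type} [Field F]
    [NumberField F] (e : F →+* ℂ) {d : ℕ} [NeZero d] (hd3 : 3 ≤ d) (he : ∀ x, e x ∈ cyc d)
    (hDet : DetFor C e) (f : Fam R F)
    (hform : ∀ (K : Type) [Field K] [NumberField K] (i : K →+* F), IsGalois ℚ K →
      FormFor cls C f i) : RelAll cls d e he f.c f.p := by
  classical
  intro ε hε
  have hpc : ∀ l, (f.p (phi e he l) : ℚ) + f.p (phi e he (-l)) = R.wt := by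
    intro l
    rw [← conj_phi]
    exact_mod_cast f.p_add (phi e he l)
  -- oddness
  have hodd : ∀ l, cls (f.c (phi e he l)) + cls (f.c (phi e he (-l)))
      = (R.wt : ℚ) • cls ((Real.pi : ℝ) : ℂ) := by
    intro l
    have hab := isAbelian_of e he
    rw [← conj_phi]
    exact odd_of_form hΓ f (hform F (RingHom.id F) inferInstance) _
  let D : (ZMod d)ˣ → V := fun l => cls (f.c (phi e he l)) - tsum' d (gam cls) ε l
  have hD : ∀ l, D l = cls (f.c (phi e he l)) - tsum' d (gam cls) ε l := fun l => rfl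
  suffices hz : ∀ l, D l = 0 from fun l => sub_eq_zero.1 (hz l)
  apply char_zero D
  · intro l
    have h2 := gam_odd hΓ d R.wt ε l (by rw [hε, hε, hpc])
    rw [hD, hD, eq_neg_iff_add_eq_zero]
    have : cls (f.c (phi e he (-l))) - tsum' d (gam cls) ε (-l) +
        (cls (f.c (phi e he l)) - tsum' d (gam cls) ε l)
        = (cls (f.c (phi e he l)) + cls (f.c (phi e he (-l)))) -
          (tsum' d (gam cls) ε l + tsum' d (gam cls) ε (-l)) := by abel
    rw [this, hodd, h2, sub_self]
  · intro χ hχ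
    by_cases hN : ∀ l, phi e he l = e → l ∈ χ.ker
    · left
      obtain ⟨K, _, _, i, hi, hGal, hcyc⟩ := exists_subfield e he χ.ker hN (cyclic_quot_ker χ)
      obtain ⟨w, hw'⟩ := ker_card e he i hi
      obtain ⟨n, Dt, hleg, hDt⟩ := hform K i hGal
      choose hex N hNk using hleg
      choose z hz using hex
      have hrel : ∀ k, RelAll cls d ((e.comp i).comp (Dt k).j) (fun x => he (i ((Dt k).j x)))
          (z k) (detType (Dt k).ι) := fun k =>
        Datum.rel hΓ hDet i hGal hcyc (Dt k) (hz k) (fun τ => (hNk k τ).1)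
          (fun τ => (hNk k τ).2 _ _ (hz k τ) (hz k _)) he
      have hphi : ∀ k l, phi ((e.comp i).comp (Dt k).j) (fun x => he (i ((Dt k).j x))) l =
          ((phi e he l).comp i).comp (Dt k).j := fun k l => rfl
      choose εk hεk using fun k => ex' hΓ d hd3 (N k)
        (fun l => ((detType (Dt k).ι (((phi e he l).comp i).comp (Dt k).j) : ℕ) : ℚ)) (fun l => by
          have h1 : ((phi e he (-l)).comp i).comp (Dt k).j =
              ComplexEmbedding.conjugate (((phi e he l).comp i).comp (Dt k).j) := by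
            rw [← conj_phi]
            rfl
          rw [h1]
          exact_mod_cast (hNk k (((phi e he l).comp i).comp (Dt k).j)).1)
      have hk : ∀ k l, cls (z k (((phi e he l).comp i).comp (Dt k).j)) =
          tsum' d (gam cls) (εk k) l := fun k l => hrel k (εk k) (fun l => hεk k l) l
      let εT : ZMod d → ℚ := fun a =>
        ∑ ν : χ.ker, ε (a * (((ν : (ZMod d)ˣ)⁻¹ : (ZMod d)ˣ) : ZMod d))
      have hεT : ∀ l : (ZMod d)ˣ,
          tsum' d (gam cls) εT l = ∑ ν : χ.ker, tsum' d (gam cls) ε (l * ν) := by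
        intro l
        rw [tsum_sum]
        exact Finset.sum_congr rfl fun ν _ => tsum_shift _ ε l ν
      have hεTid : ∀ l : (ZMod d)ˣ,
          tsum' d (fun x => x) εT l = ∑ ν : χ.ker, tsum' d (fun x => x) ε (l * ν) := by
        intro l
        rw [tsum_sum]
        exact Finset.sum_congr rfl fun ν _ => tsum_shift _ ε l ν
      have hlin := fun l => tsum_lin (gam cls) w (fun k => (Dt k).q) εk l
      have hlin' := fun l => tsum_lin (fun x : ℚ => x) w (fun k => (Dt k).q) εk l
      intro l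
      have h1 : ∑ ν : χ.ker, cls (f.c (phi e he (l * ν))) =
          (w : ℚ) • ∑ k, (Dt k).q • tsum' d (gam cls) (εk k) l := by
        rw [ker_sum e he i hi hw' (fun σ => cls (f.c σ)) l,
          (hDt ((phi e he l).comp i)).2 (fun k => z k _) (fun k => hz k _)]
        congr 1
        exact Finset.sum_congr rfl fun k _ => by rw [hk]
      have h2 : ∀ l, tsum' d (fun x => x) εT l =
          (w : ℚ) • ∑ k, (Dt k).q • tsum' d (fun x => x) (εk k) l := by
        intro l
        rw [hεTid]
        have h3 : ∑ ν : χ.ker, tsum' d (fun x => x) ε (l * ν) =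
            ∑ ν : χ.ker, (f.p (phi e he (l * ν)) : ℚ) :=
          Finset.sum_congr rfl fun ν _ => hε _
        rw [h3, ker_sum e he i hi hw' (fun σ => (f.p σ : ℚ)) l, (hDt ((phi e he l).comp i)).1]
        congr 1
        exact Finset.sum_congr rfl fun k _ => by rw [hεk, smul_eq_mul]
      have h4 : tsum' d (gam cls) εT l =
          (w : ℚ) • ∑ k, (Dt k).q • tsum' d (gam cls) (εk k) l := by
        rw [← hlin]
        apply ko' hΓ
        intro l'
        rw [h2, hlin']
      simp only [hD, Finset.sum_sub_distrib]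
      rw [h1, ← hεT, h4, sub_self]
    · right
      push Not at hN
      obtain ⟨ν, hν, hν'⟩ := hN
      refine ⟨ν, hν', fun l => ?_⟩
      rw [hD, hD, phi_mul_of_eq e he l ν hν, ← tsum_shift]
      congr 1
      apply ko' hΓ
      intro l'
      rw [tsum_shift, hε, hε, phi_mul_of_eq e he l' ν hν]

end GD
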