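import Pool.Agent.H26.DT.Gen

/-!
# Determinants of the simple constituents and the Gross-Deligne conjecture: definitions

Everything is inside the structures `Str` (Betti, de Rham and Hodge data) of the earlier files.
-/

noncomputable section

namespace GD

open Complex

/-- `M` is a substructure of `S`: a rational subspace which is a sub-Hodge structure and whose
complexification is spanned by de Rham vectors. -/
structure IsSub (S : Str) (M : Submodule ℚ S.W) : Prop where
  le : M ≤ S.B
  hodge : SubHodge S M
  deRham : S.cx M ≤ Submodule.span ℂ {x | x ∈ S.D ∧ x ∈ S.cx M}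

/-- `M` is a simple substructure. -/
structure IsSimple (S : Str) (M : Submodule ℚ S.W) : Prop where
  sub : IsSub S M
  ne : M ≠ ⊥
  min : ∀ N, N ≤ M → IsSub S N → N = ⊥ ∨ N = M

/-- `f` is an endomorphism of the substructure `M`: it respects `M`, the de Rham vectors and the
Hodge pieces. -/
structure IsEnd (S : Str) (M : Submodule ℚ S.W) (f : Module.End ℂ (S.cx M)) : Prop where
  betti : ∀ x : S.cx M, (x : S.W) ∈ M → (f x : S.W) ∈ M
  deRham : ∀ x : S.cx M, (x : S.W) ∈ S.D → (f x : S.W) ∈ S.D
  hodge : ∀ p, ∀ x : S.cx M, (x : S.W) ∈ S.hodge p → (f x : S.W) ∈ S.hodge p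

section central

variable {S : Str} {M : Submodule ℚ S.W} {K : Type} [Field K]
  (ι : K →+* Module.End ℂ (S.cx M))

/-- The field `K` acts on `M` through the centre of the algebra of endomorphisms of `M`. -/
structure IsCentral : Prop where
  isEnd : ∀ a, IsEnd S M (ι a)
  comm : ∀ f, IsEnd S M f → ∀ a, f * ι a = ι a * f

/-- The part `M_τ` of the complexification of `M` on which `K` acts through `τ`. -/
def eig (τ : K →+* ℂ) : Submodule ℂ S.W :=
  (⨅ a, Module.End.eigenspace (ι a) (τ a)).map (S.cx M).subtype

/-- The Hodge type of the determinant of `M_τ`: the sum of the `p` in the Hodge types `(p, q)` of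
`M_τ`, counted with multiplicity. -/
def detType (τ : K →+* ℂ) : ℕ :=
  ∑ p ∈ Finset.range (S.wt + 1), p * Module.finrank ℂ (eig ι τ ⊓ S.hodge p : Submodule ℂ S.W)

/-- `z` is a determinant of periods of `M_τ`: the determinant of a matrix which expresses a basis
`ω` of `M_τ` consisting of de Rham vectors in a basis `v` of `M_τ` consisting of vectors of the
span of `M` over the algebraic numbers. -/
def IsDetPeriod (τ : K →+* ℂ) (z : ℂ) : Prop :=
  ∃ (n : ℕ) (v ω : Fin n → S.W) (P : Matrix (Fin n) (Fin n) ℂ),
    LinearIndependent ℂ v ∧ Submodule.span ℂ (Set.range v) = eig ι τ ∧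
    LinearIndependent ℂ ω ∧ Submodule.span ℂ (Set.range ω) = eig ι τ ∧
    (∀ j, v j ∈ Submodule.span Qbar (M : Set S.W)) ∧ (∀ j, ω j ∈ S.D) ∧
    (∀ i, ω i = ∑ j, P i j • v j) ∧ z = P.det

/-- The Gross-Deligne relation for the determinant of `M` over `K`, with the cyclotomic
level `d`. -/
def DetRelationAt (e : K →+* ℂ) (d : ℕ) [NeZero d] : Prop :=
  ∀ ε : ZMod d → ℚ,
    (∀ (l : (ZMod d)ˣ) (τ : K →+* ℂ), IsPhi e d l τ →
      (d : ℚ) * detType ι τ =
        ∑ a ∈ Finset.univ.erase (0 : ZMod d), ε a * (((l : ZMod d) * a).val : ℚ)) →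
    ∀ (l : (ZMod d)ˣ) (τ : K →+* ℂ), IsPhi e d l τ → ∀ z, IsDetPeriod ι τ z →
      Sim z (gammaProd d ε l)

/-- The Gross-Deligne relation for the determinant of `M` over `K`, at the conductor. -/
def DetRelation (e : K →+* ℂ) : Prop :=
  ∀ (d : ℕ) [NeZero d], d = conductor e → DetRelationAt ι e d

end central

/-- The Gross-Deligne relation holds for the determinants of all simple constituents of the
structures in the class `C` over the imaginary cyclic fields `K` with an embedding `i` in `F`
which act through the centre of the endomorphisms. -/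
def DetFor (C : Str → Prop) {F : Type} [Field F] (e : F →+* ℂ) : Prop :=
  ∀ (K : Type) [Field K] [NumberField K] (i : K →+* F), (∃ x, (e (i x)).im ≠ 0) →
    IsGalois ℚ K → IsCyclic (K ≃ₐ[ℚ] K) →
    ∀ S, C S → ∀ M : Submodule ℚ S.W, IsSimple S M →
      ∀ ι : K →+* Module.End ℂ (S.cx M), IsCentral ι → DetRelation ι (e.comp i)

/-- A natural derivation: a family of linear operators, one on every structure, which commutes
with all linear morphisms and satisfies the Leibniz rule for all bilinear morphisms. -/
structure IsNat (T : (R : Str) → Module.End ℂ R.W) : Prop where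
  nat : ∀ (R R' : Str) (f : R.W →ₗ[ℂ] R'.W), IsHom R R' f → ∀ x, T R' (f x) = f (T R x)
  der : ∀ (P Q R : Str) (μ : P.W →ₗ[ℂ] Q.W →ₗ[ℂ] R.W), IsBil P Q R μ →
    ∀ x y, T R (μ x y) = μ (T P x) y + μ x (T Q y)

/-- The trace of `T` on a subspace `U` (zero if `U` is not stable). -/
def trOn {W : Type} [AddCommGroup W] [Module ℂ W] (T : Module.End ℂ W) (U : Submodule ℂ W) : ℂ := by
  classical
  exact if h : ∀ x ∈ U, T x ∈ U then LinearMap.trace ℂ U (T.restrict h) else 0

/-- A simple constituent of a structure of `C` with a central action of a subfield `L` of `K`,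
and a rational coefficient. -/
structure Datum (C : Str → Prop) (K : Type) [Field K] where
  S : Str
  mem : C S
  M : Submodule ℚ S.W
  simple : IsSimple S M
  L : Type
  [fL : Field L]
  [nL : NumberField L]
  j : L →+* K
  ι : L →+* Module.End ℂ (S.cx M)
  central : IsCentral ι
  q : ℚ

attribute [instance] Datum.fL Datum.nL

end GD
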