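import Pool.Agent.H26.DT.Conv
import Pool.Agent.H44.GD.FamPow

/-!
# The final form
-/

noncomputable section

namespace GD

theorem hasDetPow {C : Str → Prop} (hP : ∀ S, C S → Nonempty (Pol S)) : HasDetPow C := by
  intro K _ _ S hS M hM ι hι
  obtain ⟨P⟩ := hP S hS
  exact DT.exists_fam_tpow ι P hM.sub hM.ne hι.isEnd

/-- Determinants of the simple constituents suffice for the Gross-Deligne conjecture. -/
theorem determinants_suffice (C : Str → Prop) (hP : ∀ S, C S → Nonempty (Pol S))
    (F : Type) [Field F] [NumberField F] (e : F →+* ℂ) (hex : ∃ d, LiesIn e d) :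
    [TriplesFor (Gen C) e, DetFor C e, PowFor C e].TFAE :=
  three_forms hP (hasDetPow hP) e hex

end GD
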