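import Pool.Agent.H26.DT.Core
import Pool.Agent.H26.DT.FamStr
import Pool.Agent.H27.GD.Nat
import Pool.Agent.H44.GD.Leg

/-!
# Periods and types from the formula for characters
-/

noncomputable section

namespace GD

open Complex NumberField

variable {V : Type*} [AddCommGroup V] [Module ℚ V] {cls : ℂ → V}

theorem Fam.v_Bbar {R : Str} {F : Type} [Field F] [NumberField F] (f : Fam R F) (σ : F →+* ℂ) :
    f.v σ ∈ R.Bbar := by
  rw [f.expand σ]
  refine Submodule.sum_mem _ fun i _ => ?_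
  exact Submodule.smul_mem R.Bbar
    (⟨σ (bad F i), mem_algebraicClosure_iff.2 (emb_alg F σ _)⟩ : Qbar)
    (R.B_le_Bbar (f.rat (bas F i)))

open scoped Classical in
theorem formFor_of (hΓ : GammaSpec V cls) {C : Str → Prop} {R : Str} {F : Type} [Field F]
    [NumberField F] (f : Fam R F) {K : Type} [Field K] [NumberField K] (i : K →+* F)
    (hleg : ∀ D : Datum C K, D.Leg)
    (htype : ∀ (D : Datum C K) (τ : D.L →+* ℂ), trOn (DT.hOp D.S) (eig D.ι τ) = detType D.ι τ)
    (hmain : ∃ (n : ℕ) (D : Fin n → Datum C K), ∀ T : (R : Str) → Module.End ℂ R.W, IsNat T →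
      ∀ χ : (F →+* ℂ) → ℂ, (∀ s, T R (f.v s) = χ s • f.v s) → ∀ τ : K →+* ℂ,
        (∑ s ∈ Finset.univ.filter (fun s : F →+* ℂ => s.comp i = τ), χ s) =
          ∑ k, ((D k).q : ℂ) * trOn (T (D k).S) (eig (D k).ι (τ.comp (D k).j))) :
    FormFor cls C f i := by
  obtain ⟨n, D, hD⟩ := hmain
  refine ⟨n, D, fun k => hleg _, fun τ => ⟨?_, ?_⟩⟩
  · have h1 := hD DT.hOp DT.isNat_hOp (fun s => (f.p s : ℂ))
      (fun s => DT.hodgeEnd_apply R _ (f.p s) _ (f.hdg s)) τ
    simp only [htype] at h1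
    have h2 : ((∑ σ ∈ Finset.univ.filter (fun σ : F →+* ℂ => σ.comp i = τ), (f.p σ : ℚ) : ℚ) : ℂ) =
        ((∑ k, (D k).q * (detType (D k).ι (τ.comp (D k).j) : ℚ) : ℚ) : ℂ) := by
      push_cast
      exact h1
    exact_mod_cast h2
  · intro z hz
    have hz' : ∀ k, z k ≠ 0 ∧ ∀ δ : Derivation Qbar ℂ ℂ,
        trOn ((D k).S.A δ) (eig (D k).ι (τ.comp (D k).j)) = δ (z k) / z k := fun k =>
      detPeriod_trace (D k).ι (D k).simple.sub.le (hz k)
    have h1 : ∀ δ : Derivation Qbar ℂ ℂ,
        (∑ s ∈ Finset.univ.filter (fun s : F →+* ℂ => s.comp i = τ), δ (f.c s) / f.c s) =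
          ∑ k, ((D k).q : ℂ) * (δ (z k) / z k) := by
      intro δ
      have h2 := hD (fun R => R.A δ) (isNat_A δ) (fun s => δ (f.c s) / f.c s)
        (fun s => A_eigen δ (f.v_Bbar s) (f.c_ne s) (f.dR s)) τ
      rw [h2]
      exact Finset.sum_congr rfl fun k _ => by rw [(hz' k).2 δ]
    have h3 := cls_of_dlog hΓ
      ((Finset.univ.filter (fun s : F →+* ℂ => s.comp i = τ)).disjSum (Finset.univ : Finset (Fin n)))
      (Sum.elim f.c z) (Sum.elim (fun _ => 1) (fun k => -(D k).q))
      (by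
        rintro (s | k) _
        · exact f.c_ne s
        · exact (hz' k).1)
      (by
        intro δ
        rw [Finset.sum_disjSum]
        simp only [Sum.elim_inl, Sum.elim_inr, Rat.cast_one, one_mul, Rat.cast_neg, neg_mul,
          Finset.sum_neg_distrib]
        rw [h1 δ, add_neg_cancel])
    rw [Finset.sum_disjSum] at h3
    simp only [Sum.elim_inl, Sum.elim_inr, one_smul, neg_smul, Finset.sum_neg_distrib] at h3
    exact add_neg_eq_zero.1 h3

/-- The relation for all admissible triples from the relation for the determinants. -/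
theorem relation_of_det (hΓ : GammaSpec V cls) {C : Str → Prop} {F : Type} [Field F]
    [NumberField F] (e : F →+* ℂ) (hex : ∃ d, LiesIn e d) (hDet : DetFor C e) {R : Str}
    (hform : ∀ (f : Fam R F) (K : Type) [Field K] [NumberField K] (i : K →+* F), IsGalois ℚ K →
      FormFor cls C f i) (A : Adm R F) : Relation A e := by
  intro d _ hd
  have hc := liesIn_conductor hex
  rw [← hd] at hc
  have hab := isAbelian_of e hc.2
  intro p hp
  obtain ⟨f, hf, hfp⟩ := A.exists_fam p hp
  refine relationAt_of hΓ hf hc.2 ?_ p hp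
  by_cases him : ∃ x, (e x).im ≠ 0
  · exact core_det hΓ e (three_le hc.2 him) hc.2 hDet f (hform f)
  · push Not at him
    refine relAll_of_real hΓ him (N := R.wt) f.p_add ?_ hc.2
    intro σ
    have h1 := odd_of_form hΓ f (hform f F (RingHom.id F) inferInstance) σ
    refine sim_of_cls hΓ (mul_ne_zero (f.c_ne _) (f.c_ne _)) (two_pi_I_ne _) ?_
    rw [hΓ.mul _ _ (f.c_ne _) (f.c_ne _), h1, cls_two_pi_I hΓ]

end GD
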