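import Pool.Agent.H5.GD.Defs

/-!
# Morphisms, bilinear morphisms and generated classes of structures
-/

noncomputable section

namespace GD

open Complex

/-- `f : R → R'` is a morphism of structures of the same weight. -/
structure IsHom (R R' : Str) (f : R.W →ₗ[ℂ] R'.W) : Prop where
  wt : R.wt = R'.wt
  betti : ∀ x ∈ R.B, f x ∈ R'.B
  deRham : ∀ x ∈ R.D, f x ∈ R'.D
  hodge : ∀ p, ∀ x ∈ R.hodge p, f x ∈ R'.hodge p

/-- `μ : P × Q → R` is a bilinear morphism: the weight of `R` is the sum of the weights, and `μ`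
respects the rational forms, the de Rham forms, and adds Hodge types. -/
structure IsBil (P Q R : Str) (μ : P.W →ₗ[ℂ] Q.W →ₗ[ℂ] R.W) : Prop where
  wt : R.wt = P.wt + Q.wt
  betti : TensorBetti P Q R μ
  deRham : TensorDeRham P Q R μ
  hodge : TensorHodge P Q R μ

/-- The structures generated by the class `C` under tensor products, direct sums and quotients:
those which are spanned by the images of finitely many linear or bilinear morphisms from
structures which are already generated. -/
inductive Gen (C : Str → Prop) : Str → Prop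
  | base (R : Str) : C R → Gen C R
  | lin (R : Str) (n : ℕ) (P : Fin n → Str) (f : ∀ k, (P k).W →ₗ[ℂ] R.W) :
      (∀ k, Gen C (P k)) → (∀ k, IsHom (P k) R (f k)) →
      ⨆ k, LinearMap.range (f k) = ⊤ → Gen C R
  | ten (R : Str) (n : ℕ) (P Q : Fin n → Str) (μ : ∀ k, (P k).W →ₗ[ℂ] (Q k).W →ₗ[ℂ] R.W) :
      (∀ k, Gen C (P k)) → (∀ k, Gen C (Q k)) → (∀ k, IsBil (P k) (Q k) R (μ k)) →
      ⨆ k, LinearMap.range (TensorProduct.lift (μ k)) = ⊤ → Gen C R

end GD
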