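import Pool.Agent.H26.DT.Form
import Pool.Agent.H27.GD.Formula
import Pool.Agent.H44.GD.LegD

/-!
# Determinants suffice
-/

noncomputable section

namespace GD

open Complex NumberField

/-- The Gross-Deligne relation for all admissible triples in the generated class from the relation
for the determinants of the simple constituents. -/
theorem det_suffices {C : Str → Prop} (hP : ∀ S, C S → Nonempty (Pol S)) {F : Type} [Field F]
    [NumberField F] (e : F →+* ℂ) (hex : ∃ d, LiesIn e d) (hDet : DetFor C e) {R : Str}
    (hR : Gen C R) (A : Adm R F) : Relation A e := by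
  classical
  refine relation_of_det gammaSpec e hex hDet (fun f K _ _ i hGal => ?_) A
  refine formFor_of gammaSpec f i (fun D => D.leg hP) (fun D τ => ?_) ?_
  · exact trOn_hOp_eig D.ι D.simple.sub D.central.isEnd τ
  · obtain ⟨n, D, hD⟩ := DT.main_formula hP hR f i hGal
    refine ⟨n, D, fun T hT χ hχ τ => ?_⟩
    have h1 := hD T hT χ hχ τ
    convert h1 using 2

end GD
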